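import Pool.Agent.Helper95.PM.Stmts
import Pool.Agent.Helper51.PW.LMT

/-! Row LMTM of project PM (MP_56acfd_mp): limits along the approximation, all molecules. -/

set_option autoImplicit false

namespace Pool.Agent.Helper95.PW

open MeasureTheory Filter

theorem st_LMTM : ST_LMTM := by
  intro n M X Z E φ G u hgr hap
  obtain ⟨hsm, hu, hd, -, -⟩ := hap
  have mu : ∀ j s, MemLp (u j s) 2 := fun j s =>
    lmt_mem ((hsm j).1 s).1.continuous ((hsm j).1 s).2
  have md : ∀ j k i s, MemLp (dv k i (u j s)) 2 := fun j k i s =>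
    lmt_mem (lmt_dv ((hsm j).1 s).1 ((hsm j).1 s).2 k i).1
      (lmt_dv ((hsm j).1 s).1 ((hsm j).1 s).2 k i).2
  refine ⟨?_, ?_, ?_⟩
  · have := lmt_conv u φ mu hgr.lp hu
    rwa [hgr.norm] at this
  · unfold kin kinG
    refine tendsto_finsetSum _ fun k _ => tendsto_finsetSum _ fun i _ => ?_
    exact lmt_conv (fun j s => dv k i (u j s)) (G k i) (fun j s => md j k i s)
      (fun s => hgr.lpG k i s) (hd k i)
  · intro g hg hc
    have h1 : ∀ j s x, Pg g (u j s) x - PG g φ G s x =
        PG g (fun s x => u j s x - φ s x) (fun k i s x => dv k i (u j s) x - G k i s x) s x := by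
      intro j s x
      unfold Pg PG
      rw [← Finset.sum_sub_distrib]
      refine Finset.sum_congr rfl fun k _ => ?_
      simp only [mul_sub, Finset.sum_sub_distrib]
      ring
    refine lmt_conv (fun j s => Pg g (u j s)) (PG g φ G) ?_
      (lmt_PG_mem g hg hc φ G hgr.lp hgr.lpG) ?_
    · intro j s
      exact lmt_PG_mem g hg hc (u j) (fun k i s => dv k i (u j s)) (mu j)
        (fun k i s => md j k i s) s
    · obtain ⟨C, hC⟩ := lmt_PG_le (n := n) g hg hc
      have h2 : ∀ j, sq (fun s x => Pg g (u j s) x - PG g φ G s x) ≤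
          C * ((∑ k, ∑ i, sq (fun s x => dv k i (u j s) x - G k i s x)) +
            sq (fun s x => u j s x - φ s x)) := by
        intro j
        have h3 : (fun s x => Pg g (u j s) x - PG g φ G s x) =
            PG g (fun s x => u j s x - φ s x) (fun k i s x => dv k i (u j s) x - G k i s x) := by
          funext s x
          exact h1 j s x
        rw [h3]
        exact hC _ _ (fun s => (mu j s).sub (hgr.lp s))
          (fun k i s => (md j k i s).sub (hgr.lpG k i s))
      have h4 : Tendsto (fun j => C * ((∑ k, ∑ i, sq (fun s x => dv k i (u j s) x - G k i s x)) +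
          sq (fun s x => u j s x - φ s x))) atTop (nhds 0) := by
        have h5 : Tendsto (fun j => ∑ k, ∑ i, sq (fun s x => dv k i (u j s) x - G k i s x))
            atTop (nhds (∑ k : Fin n, ∑ i : Fin 3, (0 : ℝ))) :=
          tendsto_finsetSum _ fun k _ => tendsto_finsetSum _ fun i _ => hd k i
        have h6 := (h5.add hu).const_mul C
        simpa using h6
      exact squeeze_zero (fun j => lmt_sq_nonneg _) h2 h4

end Pool.Agent.Helper95.PW
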